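import Pool.Agent.Helper58.AM.Sheet

/-!
# AM, row STB (stabilizer)
-/

set_option autoImplicit false

open Finset

namespace Pool.Agent.Helper58.AM

/-- the stabilizer of a finite set -/
def stab98 {M : Type} [AddCommGroup M] (S : Finset M) : AddSubgroup M where
  carrier := {x | ∀ s ∈ S, s + x ∈ S}
  zero_mem' := by
    intro s hs
    rw [add_zero]
    exact hs
  add_mem' := by
    intro x y hx hy s hs
    have h1 := hy (s + x) (hx s hs)
    rwa [add_assoc] at h1
  neg_mem' := by
    intro x hx s hs
    have hinj : Set.InjOn (fun s => s + x) (S : Set M) := fun a _ b _ h => add_right_cancel h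
    have hmaps : Set.MapsTo (fun s => s + x) (S : Set M) (S : Set M) := fun a ha => hx a ha
    have hsurj := Finset.surjOn_of_injOn_of_card_le (fun s => s + x) hmaps hinj le_rfl
    obtain ⟨s', hs', hs'2⟩ := hsurj (show s ∈ (S : Set M) from hs)
    have h2 : s + -x = s' := by
      rw [← hs'2]
      simp
    rw [h2]
    exact hs'

theorem st_STB : ST_STB := by
  classical
  intro M _ _ _ S H σ hS hH
  refine ⟨stab98 S, fun x hx => hx, ?_⟩
  by_cases h : ∀ x ∈ H, σ + x ∈ S
  · exact Or.inl h
  · right
    push Not at h
    obtain ⟨x0, hx0, hx0S⟩ := h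
    obtain ⟨s0, hs0⟩ := hS
    have hle : stab98 S ≤ H := by
      intro k hk
      have h1 := hH (s0 + k) (hk s0 hs0)
      have h2 := hH s0 hs0
      have h3 := H.sub_mem h1 h2
      have h4 : s0 + k - σ - (s0 - σ) = k := by abel
      rwa [h4] at h3
    refine ⟨lt_of_le_of_ne hle ?_, ?_⟩
    · intro heq
      have h1 : σ + x0 - s0 ∈ H := by
        have h2 := H.sub_mem hx0 (hH s0 hs0)
        have h3 : x0 - (s0 - σ) = σ + x0 - s0 := by abel
        rwa [h3] at h2
      rw [← heq] at h1
      have h4 := h1 s0 hs0
      have h5 : s0 + (σ + x0 - s0) = σ + x0 := by abel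
      rw [h5] at h4
      exact hx0S h4
    · have hcK : Nat.card (stab98 S) = (univ.filter (fun x : M => x ∈ stab98 S)).card := by
        rw [Nat.card_eq_fintype_card, Fintype.card_subtype]
      have hcH : Nat.card H = (univ.filter (fun x : M => x ∈ H)).card := by
        rw [Nat.card_eq_fintype_card, Fintype.card_subtype]
      rw [hcK, hcH]
      have e1 : (S.image (fun s => s - σ)).card = S.card :=
        Finset.card_image_of_injective _ (fun a b h => by simpa using h)
      have e2 : ((univ.filter (fun x : M => x ∈ stab98 S)).image (fun k => x0 + k)).card =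
          (univ.filter (fun x : M => x ∈ stab98 S)).card :=
        Finset.card_image_of_injective _ (fun a b h => by simpa using h)
      rw [← e1, ← e2, ← Finset.card_union_of_disjoint]
      · apply Finset.card_le_card
        intro y hy
        rw [Finset.mem_union, Finset.mem_image, Finset.mem_image] at hy
        rw [Finset.mem_filter]
        refine ⟨Finset.mem_univ _, ?_⟩
        rcases hy with ⟨s, hs, rfl⟩ | ⟨k, hk, rfl⟩
        · exact hH s hs
        · exact H.add_mem hx0 (hle (Finset.mem_filter.1 hk).2)
      · rw [Finset.disjoint_left]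
        intro y hy1 hy2
        rw [Finset.mem_image] at hy1 hy2
        obtain ⟨s, hs, rfl⟩ := hy1
        obtain ⟨k, hk, hk2⟩ := hy2
        have h1 : -k ∈ stab98 S := (stab98 S).neg_mem (Finset.mem_filter.1 hk).2
        have h2 := h1 s hs
        have h3 : s + -k = σ + x0 := by
          have h4 : s = x0 + k + σ := by rw [hk2]; abel
          rw [h4]; abel
        rw [h3] at h2
        exact hx0S h2

end Pool.Agent.Helper58.AM
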